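import Pool.Agent.Work.MP_b5407d_lbm.Interface

/-! # Block DUA (helper94): the dual vector of an arbitrary `z` and the Schur test -/

set_option autoImplicit false

open MeasureTheory Set Filter Topology

namespace Pool.LBM.DUA

theorem dt_add (a b c : R2) : dt a (b + c) = dt a b + dt a c := by
  simp only [dt, Prod.fst_add, Prod.snd_add]; ring

theorem dt_smul (t : ℝ) (a b : R2) : dt a (t • b) = t * dt a b := by
  simp only [dt, Prod.smul_fst, Prod.smul_snd, smul_eq_mul]; ring

theorem dt_add_left (a b c : R2) : dt (a + b) c = dt a c + dt b c := by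
  simp only [dt, Prod.fst_add, Prod.snd_add]; ring

theorem dt_smul_left (t : ℝ) (a b : R2) : dt (t • a) b = t * dt a b := by
  simp only [dt, Prod.smul_fst, Prod.smul_snd, smul_eq_mul]; ring

theorem dt_sub (a b c : R2) : dt a (b - c) = dt a b - dt a c := by
  simp only [dt, Prod.fst_sub, Prod.snd_sub]; ring

theorem dt_zero (a : R2) : dt a 0 = 0 := by simp [dt]

theorem dt_sum {ι : Type} (a : R2) (s : Finset ι) (f : ι → R2) :
    dt a (∑ i ∈ s, f i) = ∑ i ∈ s, dt a (f i) := by
  classical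
  induction s using Finset.induction_on with
  | empty => simp [dt_zero]
  | insert i s hi ih => rw [Finset.sum_insert hi, Finset.sum_insert hi, dt_add, ih]

theorem continuous_dt (a : R2) : Continuous (dt a) := by unfold dt; fun_prop

theorem continuous_ex (l : R2) : Continuous (ex l) := by
  unfold ex dt; fun_prop

section EI
variable {θ P : ℕ → R2} {ℓ : ℕ → ℝ}

theorem EI_add {f g : R2 → ℝ} (hf : Continuous f) (hg : Continuous g) (k : ℕ) :
    EI (fun x => f x + g x) θ P ℓ k = EI f θ P ℓ k + EI g θ P ℓ k := by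
  unfold EI
  exact intervalIntegral.integral_add (Continuous.intervalIntegrable (by fun_prop) _ _)
    (Continuous.intervalIntegrable (by fun_prop) _ _)

theorem EI_mul (c : ℝ) (f : R2 → ℝ) (k : ℕ) :
    EI (fun x => c * f x) θ P ℓ k = c * EI f θ P ℓ k := by
  unfold EI
  exact intervalIntegral.integral_const_mul _ _

theorem EI_pos (l : R2) (k : ℕ) (h : 0 < ℓ k) : 0 < EI (ex l) θ P ℓ k := by
  unfold EI
  refine intervalIntegral.intervalIntegral_pos_of_pos
    (Continuous.intervalIntegrable ?_ _ _) (fun x => Real.exp_pos _) h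
  exact (continuous_ex l).comp (by fun_prop)

end EI

theorem isCompact_GP {n : ℕ} {θ P : ℕ → R2} (hN : Nor (gth n θ)) : IsCompact (GP n θ P) := by
  refine Metric.isCompact_of_isClosed_isBounded ?_ (hN.bdd _)
  unfold GP HP
  rw [ofPred_forall]
  exact isClosed_iInter fun i => isClosed_le (continuous_dt _) continuous_const

theorem GJ_pos {n : ℕ} {θ P : ℕ → R2} (hN : Nor (gth n θ)) (hF : Fat (gth n θ) (gh n θ P))
    (l : R2) : 0 < GJ n θ P l := by
  unfold GJ
  obtain ⟨x, hx⟩ := hF
  have hopen : IsOpen {y : R2 | ∀ j : Fin n, dt (gth n θ j) y < gh n θ P j} := by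
    rw [ofPred_forall]
    exact isOpen_iInter_of_finite fun i => isOpen_lt (continuous_dt _) continuous_const
  have hvol : 0 < volume (GP n θ P) := by
    refine lt_of_lt_of_le (hopen.measure_pos volume ⟨x, hx⟩) (measure_mono ?_)
    intro y hy j
    exact (hy j).le
  rw [setIntegral_pos_iff_support_of_nonneg_ae]
  · have : Function.support (ex l) = univ := by
      ext y
      simp [Function.mem_support, ex, Real.exp_ne_zero]
    rw [this, univ_inter]
    exact hvol
  · exact Eventually.of_forall fun y => (Real.exp_pos _).le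
  · exact (continuous_ex l).continuousOn.integrableOn_compact (isCompact_GP hN)

section lin
variable {n : ℕ} {θ P : ℕ → R2} {ℓ : ℕ → ℝ} {l : R2}

theorem dms_add (lam lam' : R2) (W W' : ℕ → R2) (k : ℕ) :
    dms θ P ℓ l (lam + lam') (fun k => W k + W' k) k
      = dms θ P ℓ l lam W k + dms θ P ℓ l lam' W' k := by
  unfold dms
  have e : (fun x => ex l x * (dt (lam + lam') x + dt l (W k + W' k)))
      = fun x => ex l x * (dt lam x + dt l (W k)) + ex l x * (dt lam' x + dt l (W' k)) := by
    funext x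
    rw [dt_add_left, dt_add]; ring
  have c1 := continuous_ex l
  have c2 := continuous_dt lam
  have c3 := continuous_dt lam'
  rw [e, EI_add (by fun_prop) (by fun_prop), dt_sub, dt_sub, dt_sub, dt_add, dt_add]
  ring

theorem dms_smul (t : ℝ) (lam : R2) (W : ℕ → R2) (k : ℕ) :
    dms θ P ℓ l (t • lam) (fun k => t • W k) k = t * dms θ P ℓ l lam W k := by
  unfold dms
  have e : (fun x => ex l x * (dt (t • lam) x + dt l (t • W k)))
      = fun x => t * (ex l x * (dt lam x + dt l (W k))) := by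
    funext x
    rw [dt_smul_left, dt_smul]; ring
  rw [e, EI_mul, dt_sub, dt_sub, dt_smul, dt_smul]
  ring

theorem dII_add (hN : Nor (gth n θ)) {F : R2 → ℝ} (hF : Continuous F) (lam lam' : R2)
    (W W' : ℕ → R2) : dII n θ P ℓ l (lam + lam') (fun k => W k + W' k) F
      = dII n θ P ℓ l lam W F + dII n θ P ℓ l lam' W' F := by
  unfold dII
  have c1 := continuous_ex l
  have c2 := continuous_dt lam
  have c3 := continuous_dt lam'
  have e : (∫ x in GP n θ P, F x * dt (lam + lam') x * ex l x)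
      = (∫ x in GP n θ P, F x * dt lam x * ex l x) + ∫ x in GP n θ P, F x * dt lam' x * ex l x := by
    rw [← integral_add]
    · refine integral_congr_ae (Eventually.of_forall fun x => ?_)
      simp only [dt_add_left]; ring
    · exact Continuous.continuousOn (by fun_prop) |>.integrableOn_compact (isCompact_GP hN)
    · exact Continuous.continuousOn (by fun_prop) |>.integrableOn_compact (isCompact_GP hN)
  rw [e]
  have e2 : ∑ k ∈ Finset.range n, dt (θ k) (W k + W' k) * EI (fun x => F x * ex l x) θ P ℓ k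
      = ∑ k ∈ Finset.range n, dt (θ k) (W k) * EI (fun x => F x * ex l x) θ P ℓ k
        + ∑ k ∈ Finset.range n, dt (θ k) (W' k) * EI (fun x => F x * ex l x) θ P ℓ k := by
    rw [← Finset.sum_add_distrib]
    exact Finset.sum_congr rfl fun k _ => by rw [dt_add]; ring
  rw [e2]
  ring

theorem dII_smul (t : ℝ) (F : R2 → ℝ) (lam : R2) (W : ℕ → R2) :
    dII n θ P ℓ l (t • lam) (fun k => t • W k) F = t * dII n θ P ℓ l lam W F := by
  unfold dII
  have e : (∫ x in GP n θ P, F x * dt (t • lam) x * ex l x)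
      = t * ∫ x in GP n θ P, F x * dt lam x * ex l x := by
    rw [← integral_const_mul]
    refine integral_congr_ae (Eventually.of_forall fun x => ?_)
    simp only [dt_smul_left]; ring
  rw [e, mul_add, Finset.mul_sum]
  congr 1
  exact Finset.sum_congr rfl fun k _ => by rw [dt_smul]; ring

theorem Dual_add (hN : Nor (gth n θ)) {z z' : ℕ → ℝ} {W W' : ℕ → R2} {lam lam' : R2} {c c' : ℝ}
    (h : Dual n θ P ℓ l z W lam c) (h' : Dual n θ P ℓ l z' W' lam' c') :
    Dual n θ P ℓ l (fun k => z k + z' k) (fun k => W k + W' k) (lam + lam') (c + c') where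
  per k := by rw [h.per, h'.per]
  par k := by rw [dt_add, dt_add, h.par, h'.par]
  mass k := by rw [dms_add, h.mass, h'.mass]; ring
  vol := by rw [dII_add hN continuous_const, h.vol, h'.vol]; ring
  bar1 := by rw [dII_add hN continuous_fst, h.bar1, h'.bar1, add_zero]
  bar2 := by rw [dII_add hN continuous_snd, h.bar2, h'.bar2, add_zero]

theorem Dual_smul {z : ℕ → ℝ} {W : ℕ → R2} {lam : R2} {c : ℝ}
    (h : Dual n θ P ℓ l z W lam c) (t : ℝ) :
    Dual n θ P ℓ l (fun k => t * z k) (fun k => t • W k) (t • lam) (t * c) where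
  per k := by rw [h.per]
  par k := by rw [dt_smul, dt_smul, h.par]
  mass k := by rw [dms_smul, h.mass]; ring
  vol := by rw [dII_smul, h.vol]; ring
  bar1 := by rw [dII_smul, h.bar1, mul_zero]
  bar2 := by rw [dII_smul, h.bar2, mul_zero]

theorem Dual_sum (hN : Nor (gth n θ)) {z : ℕ → ℕ → ℝ} {W : ℕ → ℕ → R2} {lam : ℕ → R2}
    {c : ℕ → ℝ} (h : ∀ j < n, Dual n θ P ℓ l (z j) (W j) (lam j) (c j)) (h0 : 0 < n)
    (t : ℕ → ℝ) (m : ℕ) (hm : m ≤ n) :
    Dual n θ P ℓ l (fun k => ∑ j ∈ Finset.range m, t j * z j k)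
      (fun k => ∑ j ∈ Finset.range m, t j • W j k) (∑ j ∈ Finset.range m, t j • lam j)
      (∑ j ∈ Finset.range m, t j * c j) := by
  induction m with
  | zero =>
    have := Dual_smul (h 0 h0) 0
    simpa using this
  | succ m ih =>
    simp only [Finset.sum_range_succ]
    exact Dual_add hN (ih (by omega)) (Dual_smul (h m (by omega)) (t m))

end lin

theorem sum_dlt {n : ℕ} (hn : 0 < n) (f : ℕ → ℝ) (hf : ∀ k, f (k + n) = f k) (k : ℕ) :
    ∑ j ∈ Finset.range n, f j * dlt n j k = f k := by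
  have h1 : ∀ q r, f (r + n * q) = f r := by
    intro q r
    induction q with
    | zero => simp
    | succ q ih => rw [Nat.mul_succ, ← add_assoc, hf, ih]
  have h2 : f (k % n) = f k := by
    conv_rhs => rw [← Nat.mod_add_div k n, h1]
  rw [Finset.sum_eq_single_of_mem (k % n) (Finset.mem_range.2 (Nat.mod_lt _ hn))]
  · unfold dlt
    rw [Nat.mod_mod, if_pos rfl, mul_one, h2]
  · intro j hj hne
    have hj' := Finset.mem_range.1 hj
    unfold dlt
    rw [if_neg, mul_zero]
    rw [Nat.mod_eq_of_lt hj']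
    exact fun h => hne h.symm

theorem sum_dlt' {n : ℕ} (f : ℕ → ℝ) (k : ℕ) (hk : k < n) :
    ∑ j ∈ Finset.range n, dlt n k j * f j = f k := by
  rw [Finset.sum_eq_single_of_mem k (Finset.mem_range.2 hk)]
  · unfold dlt; rw [if_pos rfl, one_mul]
  · intro j hj hne
    have hj' := Finset.mem_range.1 hj
    unfold dlt
    rw [if_neg, zero_mul]
    rw [Nat.mod_eq_of_lt hj', Nat.mod_eq_of_lt hk]
    exact hne

/-- the Schur test -/
theorem schur (n : ℕ) (K : ℕ → ℕ → ℝ) (u z h : ℕ → ℝ) (hu : ∀ k < n, 0 < u k)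
    (hs : ∀ k < n, ∀ j < n, K k j = K j k) (hp : ∀ k < n, ∀ j < n, k ≠ j → 0 ≤ K k j)
    (hh : ∀ k < n, h k = ∑ i ∈ Finset.range n, u i * K i k) :
    ∑ k ∈ Finset.range n, ∑ j ∈ Finset.range n, z k * z j * K k j ≤
      ∑ k ∈ Finset.range n, h k * z k ^ 2 / u k := by
  have e1 : ∑ k ∈ Finset.range n, h k * z k ^ 2 / u k
      = ∑ k ∈ Finset.range n, ∑ j ∈ Finset.range n, K k j * (z k ^ 2 * (u j / u k)) := by
    refine Finset.sum_congr rfl fun k hk => ?_
    rw [hh k (Finset.mem_range.1 hk), Finset.sum_mul, Finset.sum_div]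
    refine Finset.sum_congr rfl fun j hj => ?_
    rw [hs j (Finset.mem_range.1 hj) k (Finset.mem_range.1 hk)]
    ring
  have e2 : ∑ k ∈ Finset.range n, ∑ j ∈ Finset.range n, K k j * (z k ^ 2 * (u j / u k))
      = ∑ k ∈ Finset.range n, ∑ j ∈ Finset.range n, K k j * (z j ^ 2 * (u k / u j)) := by
    rw [Finset.sum_comm]
    refine Finset.sum_congr rfl fun k hk => Finset.sum_congr rfl fun j hj => ?_
    rw [hs j (Finset.mem_range.1 hj) k (Finset.mem_range.1 hk)]
  have e3 : ∑ k ∈ Finset.range n, ∑ j ∈ Finset.range n, z k * z j * K k j ≤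
      ∑ k ∈ Finset.range n, ∑ j ∈ Finset.range n,
        (K k j * (z k ^ 2 * (u j / u k)) + K k j * (z j ^ 2 * (u k / u j))) / 2 := by
    refine Finset.sum_le_sum fun k hk => Finset.sum_le_sum fun j hj => ?_
    have hk' := Finset.mem_range.1 hk
    have hj' := Finset.mem_range.1 hj
    have huk := hu k hk'
    have huj := hu j hj'
    by_cases hkj : k = j
    · subst hkj
      rw [div_self huk.ne']
      apply le_of_eq
      ring
    · have h1 := hp k hk' j hj' hkj
      have h2 : 2 * (z k * z j) ≤ z k ^ 2 * (u j / u k) + z j ^ 2 * (u k / u j) := by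
        have h3 : z k ^ 2 * (u j / u k) + z j ^ 2 * (u k / u j) - 2 * (z k * z j)
            = (z k * u j - z j * u k) ^ 2 / (u k * u j) := by
          field_simp
          ring
        have h4 : 0 ≤ (z k * u j - z j * u k) ^ 2 / (u k * u j) := by positivity
        linarith
      nlinarith [mul_le_mul_of_nonneg_left h2 h1]
  rw [e1]
  refine e3.trans (le_of_eq ?_)
  simp only [← Finset.sum_div, Finset.sum_add_distrib]
  rw [← e2]
  ring

theorem eq_or_neg {a b : R2} (ha : dt a a = 1) (hb : dt b b = 1) (h : cr a b = 0) :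
    a = b ∨ a = -b := by
  obtain ⟨a1, a2⟩ := a
  obtain ⟨b1, b2⟩ := b
  simp only [dt, cr] at ha hb h
  have h1 : (a1 * b1 + a2 * b2) ^ 2 = 1 := by nlinarith
  have h2 : (a1 * b1 + a2 * b2 - 1) * (a1 * b1 + a2 * b2 + 1) = 0 := by nlinarith
  rcases mul_eq_zero.1 h2 with h3 | h3
  · left
    have h4 : (a1 - b1) ^ 2 + (a2 - b2) ^ 2 = 0 := by nlinarith
    have h5 : a1 - b1 = 0 := by nlinarith [sq_nonneg (a1 - b1), sq_nonneg (a2 - b2)]
    have h6 : a2 - b2 = 0 := by nlinarith [sq_nonneg (a1 - b1), sq_nonneg (a2 - b2)]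
    rw [Prod.mk.injEq]
    exact ⟨by linarith, by linarith⟩
  · right
    have h4 : (a1 + b1) ^ 2 + (a2 + b2) ^ 2 = 0 := by nlinarith
    have h5 : a1 + b1 = 0 := by nlinarith [sq_nonneg (a1 + b1), sq_nonneg (a2 + b2)]
    have h6 : a2 + b2 = 0 := by nlinarith [sq_nonneg (a1 + b1), sq_nonneg (a2 + b2)]
    rw [Prod.neg_mk, Prod.mk.injEq]
    exact ⟨by linarith, by linarith⟩

end Pool.LBM.DUA

namespace Pool.LBM

open DUA in
theorem blk_DUA : Stmt_SRC → Stmt_SCA → Stmt_SYM → Stmt_GN → Stmt_DUA := by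
  intro hSRC hSCA hSYM hGN hPOS n θ P ℓ l hG hC hA z hz
  have hn : 0 < n := by have := hG.three; omega
  obtain ⟨hN, hF, -⟩ := hGN n θ P ℓ hG
  choose! W c hD hpos using hSRC hPOS n θ P ℓ l hG hC
  have hJ : 0 < GJ n θ P l := GJ_pos hN hF l
  have hm : ∀ k, 0 < EI (ex l) θ P ℓ k := fun k => EI_pos l k (hG.pos k)
  have hsum := Dual_sum hN hD hn z n le_rfl
  have e : (fun k => ∑ j ∈ Finset.range n, z j * dlt n j k) = z := by
    funext k
    exact sum_dlt hn z hz k
  rw [e] at hsum
  refine ⟨_, _, _, hsum, ?_⟩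
  · have hs : ∀ k < n, ∀ j < n, dt (θ k) (W j k) = dt (θ j) (W k j) := by
      intro k hk j hj
      have h1 := hSYM n θ P ℓ l hG hC _ _ _ _ _ _ _ _ (hD j hj) (hD k hk)
      rw [sum_dlt' (fun i => dt (θ i) (W j i)) k hk, sum_dlt' (fun i => dt (θ i) (W k i)) j hj]
        at h1
      exact h1
    have hp : ∀ k < n, ∀ j < n, k ≠ j → 0 ≤ dt (θ k) (W j k) := by
      intro k hk j hj hkj
      rcases lt_trichotomy (cr (θ j) (θ k)) 0 with h1 | h1 | h1
      · rw [hs k hk j hj]
        refine hpos k hk j hj ?_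
        have : cr (θ k) (θ j) = -cr (θ j) (θ k) := by simp only [cr]; ring
        rw [this]; linarith
      · exfalso
        rcases eq_or_neg (hG.unit j) (hG.unit k) h1 with h2 | h2
        · have h3 := hN.inj (a₁ := ⟨j, hj⟩) (a₂ := ⟨k, hk⟩) h2
          rw [Fin.mk.injEq] at h3
          exact hkj h3.symm
        · exact hA j k h2
      · exact hpos j hj k hk h1
    have hh : ∀ k < n, dt (θ k) (P k) = ∑ i ∈ Finset.range n,
        EI (ex l) θ P ℓ i / GJ n θ P l * dt (θ i) (W k i) := by
      intro k hk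
      have h1 := hSYM n θ P ℓ l hG hC _ _ _ _ _ _ _ _ (hSCA n θ P ℓ l hG hC) (hD k hk)
      rw [sum_dlt' (fun i => dt (θ i) (P i)) k hk] at h1
      exact h1
    have h1 := schur n (fun k j => dt (θ k) (W j k)) (fun k => EI (ex l) θ P ℓ k / GJ n θ P l)
      z (fun k => dt (θ k) (P k)) (fun k _ => div_pos (hm k) hJ) hs hp hh
    have e1 : ∑ k ∈ Finset.range n, z k * dt (θ k) (∑ j ∈ Finset.range n, z j • W j k)
        = ∑ k ∈ Finset.range n, ∑ j ∈ Finset.range n, z k * z j * dt (θ k) (W j k) := by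
      refine Finset.sum_congr rfl fun k _ => ?_
      rw [dt_sum, Finset.mul_sum]
      refine Finset.sum_congr rfl fun j _ => ?_
      rw [dt_smul]; ring
    rw [e1]
    refine h1.trans (le_of_eq (Finset.sum_congr rfl fun k _ => ?_))
    have := (hm k).ne'
    have := hJ.ne'
    field_simp

end Pool.LBM
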